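import Pool.Agent.helper69.LN.Spec

/-!
# MP_069684_lc, row ln:PNP: padding preserves nonuniform NP
-/

set_option autoImplicit false

namespace Pool.Agent.LN

open Finset Pool.Agent.helper38.Neg Pool.Agent.helper55.NT

theorem PNP_iff (c : ℕ) (A : Lang) (n : ℕ) (x : Fin (n + c + n) → Bool) :
    Pd c A (n + c + n) x ↔ A n (fun i => x (Fin.natAdd (n + c) i)) := by
  constructor
  · rintro ⟨n', h, h'⟩
    have h1 : n' = n := by omega
    subst h1
    exact h'
  · intro h
    exact ⟨n, rfl, h⟩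

theorem PNP : PNP_stmt := by
  intro c A hA
  obtain ⟨p, hp⟩ := hA
  refine ⟨p + 1, fun m => ?_⟩
  have hev : (p + 1 : Polynomial ℕ).eval m = p.eval m + 1 := by simp
  rw [hev]
  by_cases hm : ∃ n, n + c + n = m
  · obtain ⟨n, rfl⟩ := hm
    obtain ⟨w, s, hw, hs, C, o, hC⟩ := hp n
    have hpm : p.eval n ≤ p.eval (n + c + n) := eval_mono p (by omega)
    obtain ⟨L, hL1, hL2, hL3⟩ := Circuit.toChain C
    let φ : Fin (n + w) → Fin (n + c + n + w) :=
      Fin.append (fun i : Fin n => Fin.castAdd w (Fin.natAdd (n + c) i))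
        (fun j : Fin w => Fin.natAdd (n + c + n) j)
    have hcost : HasCost (fun z : Fin (n + c + n + w) → Bool => C.val (z ∘ φ) o) s :=
      HasCost.rename φ (f := fun z => C.val z o) ⟨L, hL1, hL2.le, hL3 o⟩
    obtain ⟨L', g1, g2, g3⟩ := hcost
    obtain ⟨C', hC'⟩ := g1.toCircuit
    obtain ⟨o', ho'⟩ := hC' _ g3
    refine ⟨w, L'.length, by omega, by omega, C', o', fun x => ?_⟩
    rw [PNP_iff]
    have hval : ∀ y : Fin w → Bool, (Fin.append x y) ∘ φ =
        Fin.append (fun i => x (Fin.natAdd (n + c) i)) y := by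
      intro y
      funext j
      refine Fin.addCases (fun i => ?_) (fun i => ?_) j
      · simp [φ]
      · simp [φ]
    constructor
    · intro h1
      obtain ⟨y, hy⟩ := (hC _).1 h1
      refine ⟨y, ?_⟩
      rw [ho', hval]
      exact hy
    · rintro ⟨y, hy⟩
      rw [ho', hval] at hy
      exact (hC _).2 ⟨y, hy⟩
  · refine ⟨0, 1, by omega, by omega, Circuit.snoc Circuit.nil (Gate.const false),
      Fin.last _, fun x => ?_⟩
    constructor
    · rintro ⟨n, h, -⟩
      exact absurd ⟨n, h⟩ hm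
    · rintro ⟨y, hy⟩
      simp [Circuit.val, Gate.eval] at hy

end Pool.Agent.LN
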