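import Pool.Agent.helper69.LN.TSpec

/-!
# MP_069684_lc, row ln:TNP: the language on the first `min (u n) n` bits is in nonuniform NP and monotone
-/

set_option autoImplicit false

namespace Pool.Agent.LN

open Finset Pool.Agent.helper38.Neg Pool.Agent.helper55.NT

theorem TNP_aux (n k : ℕ) (hk : k ≤ n) (w s : ℕ) (C : Circuit (k + w) s)
    (o : Fin (k + w + s)) (A : (Fin k → Bool) → Prop)
    (hC : ∀ x : Fin k → Bool, A x ↔ ∃ y : Fin w → Bool, C.val (Fin.append x y) o = true) :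
    ∃ s' ≤ s, ∃ (C' : Circuit (n + w) s') (o' : Fin (n + w + s')),
      ∀ x : Fin n → Bool, A (fun i => x (Fin.castLE hk i)) ↔
        ∃ y : Fin w → Bool, C'.val (Fin.append x y) o' = true := by
  obtain ⟨L, hL1, hL2, hL3⟩ := Circuit.toChain C
  let φ : Fin (k + w) → Fin (n + w) :=
    Fin.append (fun i : Fin k => Fin.castAdd w (Fin.castLE hk i))
      (fun j : Fin w => Fin.natAdd n j)
  have hcost : HasCost (fun z : Fin (n + w) → Bool => C.val (z ∘ φ) o) s :=
    HasCost.rename φ (f := fun z => C.val z o) ⟨L, hL1, hL2.le, hL3 o⟩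
  obtain ⟨L', g1, g2, g3⟩ := hcost
  obtain ⟨C', hC'⟩ := g1.toCircuit
  obtain ⟨o', ho'⟩ := hC' _ g3
  refine ⟨L'.length, g2, C', o', fun x => ?_⟩
  have hval : ∀ y : Fin w → Bool, (Fin.append x y) ∘ φ =
      Fin.append (fun i => x (Fin.castLE hk i)) y := by
    intro y
    funext j
    refine Fin.addCases (fun i => ?_) (fun i => ?_) j
    · simp [φ]
    · simp [φ]
  constructor
  · intro h1
    obtain ⟨y, hy⟩ := (hC _).1 h1
    refine ⟨y, ?_⟩
    rw [ho', hval]
    exact hy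
  · rintro ⟨y, hy⟩
    rw [ho', hval] at hy
    exact (hC _).2 ⟨y, hy⟩

theorem TNP : TNP_stmt := by
  intro u
  refine ⟨?_, ?_⟩
  · obtain ⟨p, hp⟩ := lang_inNPPoly
    refine ⟨p, fun n => ?_⟩
    have hk : min (u n) n ≤ n := min_le_right _ _
    obtain ⟨w, s, hw, hs, C, o, hC⟩ := hp (min (u n) n)
    have hpn : p.eval (min (u n) n) ≤ p.eval n := eval_mono p hk
    obtain ⟨s', hs', C', o', h⟩ := TNP_aux n (min (u n) n) hk w s C o _ hC
    exact ⟨w, s', hw.trans hpn, hs'.trans (hs.trans hpn), C', o', h⟩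
  · intro n x y hxy
    unfold PL
    exact lang_mono (min (u n) n) (fun i => hxy _)

end Pool.Agent.LN
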